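import Pool.Agent.U36.TS.Stm2

/-!
# PT: powers of `T`
-/

set_option autoImplicit false

namespace Pool.Agent.U36.TS

open Pool.Agent.TH954

theorem t_PT : S_PT := by
  intro M _ l q th T Ph U h n
  have hfix : ∀ (k : ℕ) (x : M), T x = x → (T ^ k) x = x := by
    intro k x hx
    induction k with
    | zero => simp
    | succ k ih => rw [pow_succ, RingAut.mul_apply, hx, ih]
  have hconj : ∀ (k : ℕ) (x : M), Ph ((T ^ k) x) = ((T ^ k) ^ q) (Ph x) := by
    intro k
    induction k with
    | zero => intro x; simp
    | succ k ih =>
      intro x
      rw [pow_succ, RingAut.mul_apply, ih, h.rel, ← RingAut.mul_apply]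
      congr 1
      rw [← pow_mul, ← pow_add, ← pow_succ, ← pow_mul]
      congr 1
      ring
  have hmem : ∀ (k : ℕ), ∀ x ∈ U, (T ^ k) x ∈ U := by
    intro k
    induction k with
    | zero => intro x hx; simpa using hx
    | succ k ih =>
      intro x hx
      rw [pow_succ, RingAut.mul_apply]
      exact ih _ (h.T_mem x hx)
  exact
    { prime := h.prime
      two := h.two
      prim := h.prim
      comp := h.comp
      T_fix := fun m => hfix n _ (h.T_fix m)
      Ph_pow := h.Ph_pow
      rel := hconj n
      ne_zero := h.ne_zero
      mul := h.mul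
      inv := h.inv
      T_mem := hmem n
      root := h.root
      of_pow := h.of_pow
      one_sub := h.one_sub
      const := fun m i hi => ⟨(h.const m i hi).1, fun k y hy => hfix n y ((h.const m i hi).2 k y hy)⟩ }

end Pool.Agent.U36.TS
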